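import Pool.Agent.U1.VF.CompAttr

/-!
# Finitude of attractors near compositions of Hamiltonian and dissipative flows

Author: helper1.

Definitions: `FlowOn`, `omegaLim`, `IsAttractor`, `FiniteAttractors`, `Field`, `Smooth`, `IsC`,
`IsFlowOf` in `Pool/Agent/U1/VF/Defs.lean`; `dh` (the derivative of a function in the direction of a
vector) in `Pool/Agent/U1/VF/Grad.lean`; `vcomb`, `OpLinear`, `OpNonneg`, `DissOp` in
`Pool/Agent/U1/VF/Tensor.lean`; `IsComp` in `Pool/Agent/U1/VF/Comp.lean`; `V`, `DiffM`,
`StrongData`, `strongNbhd`, `strongTop` (the `C^r` topology) in `Pool/Agent/H718R2/G0.lean`.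
-/

set_option autoImplicit false

open scoped Manifold ContDiff Topology

universe u

namespace Pool.Agent.Results.MP_3a2b62_an.HamiltonianCompositions

open MeasureTheory Pool.Agent.U1.VF

open Pool.Agent.H718R2.G (DiffM strongTop)

/-- Let `N` be a closed manifold, `h` an arbitrary smooth function on `N`, and let the diffeomorphism
`F` be a composition of time `τ` maps, `τ ≥ 0`, of the flows of fields `A_1 h, …, A_m h`, where each
`A_i` is a linear operator which assigns to every smooth function `g` a smooth field `A_i g` with
`dg (A_i g) ≥ 0` (the Hamiltonian field of `g` for a symplectic or Poisson structure, the gradient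
for a metric, sums; the structures may be different for different `i`). Then every neighbourhood of
`F` in the `C^r` topology, `1 ≤ r ≤ ∞`, contains `G` which has finitely many attractors covering `N` up
to a null set, for every measure on `N`, and whose `ω`-limit sets are contained in a finite set. -/
theorem result (n : ℕ) (N : Type u) [TopologicalSpace N] [T2Space N] [CompactSpace N] [Nonempty N]
    [ChartedSpace (EuclideanSpace ℝ (Fin n)) N] [IsManifold (𝓡 n) ∞ N] (r : ℕ∞) (hr : 1 ≤ r)
    (h : N → ℝ) (hh : Smooth n h) (F : DiffM n N r) (hF : IsComp n h F) (U : Set (DiffM n N r))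
    (hU : IsOpen[strongTop n N r] U) (hFU : F ∈ U) :
    ∃ G ∈ U, (∃ S : Set N, S.Finite ∧ ∀ p, omegaLim G p ⊆ S) ∧
      ∀ (_ : MeasurableSpace N) (μ : Measure N), FiniteAttractors μ G :=
  comp_attr hr hh F hF U hU hFU

end Pool.Agent.Results.MP_3a2b62_an.HamiltonianCompositions
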