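import Pool.Agent.U1.VF.Tensor

/-!
# Finitude of attractors near Hamiltonian and dissipative vector fields

Author: helper1.

Definitions: `FlowOn`, `omegaF`, `IsAttractorF`, `FiniteAttractorsF`, `omegaLim`, `IsAttractor`,
`FiniteAttractors`, `Field`, `Smooth`, `IsC`, `IsFlowOf` in `Pool/Agent/U1/VF/Defs.lean`; `dh` (the
derivative of a function in the direction of a vector) in `Pool/Agent/U1/VF/Grad.lean`; `Fields`
(`C^r` vector fields), `cinv`, `dchart`, `rep`, `crBall`, `crTop` (the `C^r` topology) in
`Pool/Agent/U1/VF/Top.lean`; `Conv` in `Pool/Agent/U1/VF/Final.lean`; `vcomb`,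
`OpLinear`, `OpNonneg`, `DissOp`, `DissOp.field` in `Pool/Agent/U1/VF/Tensor.lean`.
-/

set_option autoImplicit false

open scoped Manifold ContDiff Topology

universe u

namespace Pool.Agent.Results.MP_3a2b62_an.HamiltonianFields

open Pool.Agent.U1.VF

/-- Let `N` be a closed manifold, `1 ≤ r ≤ ∞`, and let `A` be a linear operator which assigns to every
smooth function `h` a `C^r` vector field `A h` with `dh (A h) ≥ 0`: for instance the Hamiltonian field
of `h` for a symplectic or Poisson structure, the gradient of `h`, or a sum of such. For every smooth
function `h` the field `A h` is a limit, in the `C^r` topology, of `C^r` fields `Y` whose flow has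
finitely many attractors covering `N`; moreover every orbit of `Y` converges to one of finitely many
points, and all time `τ` maps, `τ > 0`, have finitely many attractors covering `N`. Here the
attractors cover `N` up to a null set of every measure. -/
theorem result (n : ℕ) (N : Type u) [TopologicalSpace N] [T2Space N] [CompactSpace N]
    [ChartedSpace (EuclideanSpace ℝ (Fin n)) N] [IsManifold (𝓡 n) ∞ N] (r : ℕ∞) (hr : 1 ≤ r)
    (B : DissOp n N r) (h : N → ℝ) (hh : Smooth n h) :
    B.field h hh ∈ closure[crTop n N r] (Conv n N r) :=
  tensor_closure hr B hh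

end Pool.Agent.Results.MP_3a2b62_an.HamiltonianFields
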