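import Pool.Agent.U1.VF.Pieces

/-!
# Finitude of attractors near vector fields which do not decrease a function

Author: helper1.

Definitions: `FlowOn`, `omegaF`, `IsAttractorF`, `FiniteAttractorsF`, `Field`, `Smooth`, `IsC`,
`IsFlowOf` in `Pool/Agent/U1/VF/Defs.lean`; `dh` (the derivative of a function in the direction of a
vector), `Crit` (critical points) in `Pool/Agent/U1/VF/Grad.lean`; `Fields` (`C^r` vector fields),
`cinv`, `dchart`, `rep`, `crBall`, `crTop` (the `C^r` topology) in `Pool/Agent/U1/VF/Top.lean`;
`Pieces`, `InPieces` in `Pool/Agent/U1/VF/Pieces.lean`.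
-/

set_option autoImplicit false

open scoped Manifold ContDiff Topology

universe u

namespace Pool.Agent.Results.MP_3a2b62_an.MonotoneFlows

open Pool.Agent.U1.VF

/-- Let `N` be a closed manifold, `1 ≤ r ≤ ∞`, `X` a `C^r` vector field with flow `ψ`, and `h` a
smooth function with `dh (X) ≥ 0`, for instance a first integral of `X`. Suppose that the points
whose whole orbit consists of critical points of `h` are contained in finitely many pairwise
disjoint closed invariant transitive sets `M 0, …, M (m - 1)` of critical points of `h` (for
instance, that `h` has finitely many critical points). Then `X` is a limit, in the `C^r` topology,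
of `C^r` fields whose flow has every `ω`-limit set inside one of the `M i` and has finitely many
attractors covering `N` up to a null set, for every measure on `N`. -/
theorem result (n : ℕ) (N : Type u) [TopologicalSpace N] [T2Space N] [CompactSpace N]
    [ChartedSpace (EuclideanSpace ℝ (Fin n)) N] [IsManifold (𝓡 n) ∞ N] (r : ℕ∞) (hr : 1 ≤ r)
    (X : Fields n N r) (ψ : ℝ → N → N) (hψ : IsFlowOf ψ X.1)
    (h : N → ℝ) (hh : Smooth n h) (hmon : ∀ x, 0 ≤ dh n h x (X.1 x))
    (m : ℕ) (M : Fin m → Set N) (hM : Pieces n ψ h M) :
    X ∈ closure[crTop n N r] (InPieces n r M) :=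
  pieces_closure hr X hψ hh hmon hM

end Pool.Agent.Results.MP_3a2b62_an.MonotoneFlows
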